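import Pool.Agent.Lib_helper79.Q3.Wanted

/-!
# MP_479881_co, block CHI: the index is a character
-/

set_option autoImplicit false

namespace Pool.Agent.Q3

theorem chi_idx_mod (p m e ω x : ℕ) : idx p m e ω (x % p) = idx p m e ω x := by
  unfold idx
  rw [← Nat.pow_mod]

theorem chi_cast_ne {p x : ℕ} (hx : x % p ≠ 0) : (x : ZMod p) ≠ 0 := by
  intro h
  rw [ZMod.natCast_eq_zero_iff] at h
  exact hx (Nat.mod_eq_zero_of_dvd h)

theorem chi_prim {p m ω : ℕ} (hp : p.Prime) (hm : m.Prime) (hω : ω ^ m % p = 1)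
    (hω1 : ω % p ≠ 1) : IsPrimitiveRoot (ω : ZMod p) m := by
  have := Fact.mk hp
  have := Fact.mk hm
  have h1 : (ω : ZMod p) ^ m = 1 := by
    have : ((ω ^ m : ℕ) : ZMod p) = ((1 : ℕ) : ZMod p) := by
      rw [ZMod.natCast_eq_natCast_iff]
      unfold Nat.ModEq
      rw [hω, Nat.mod_eq_of_lt hp.one_lt]
    simpa using this
  have h2 : (ω : ZMod p) ≠ 1 := by
    intro h
    apply hω1
    have : ((ω : ℕ) : ZMod p) = ((1 : ℕ) : ZMod p) := by simpa using h
    rw [ZMod.natCast_eq_natCast_iff] at this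
    unfold Nat.ModEq at this
    rwa [Nat.mod_eq_of_lt hp.one_lt] at this
  have h3 := orderOf_eq_prime h1 h2
  rw [← h3]
  exact IsPrimitiveRoot.orderOf _

theorem chi_spec {p m e ω : ℕ} (hp : p.Prime) (hm : m.Prime) (hme : m * e + 1 = p)
    (hω : ω ^ m % p = 1) (hω1 : ω % p ≠ 1) {x : ℕ} (hx : x % p ≠ 0) :
    idx p m e ω x < m ∧ (x : ZMod p) ^ e = (ω : ZMod p) ^ (idx p m e ω x) := by
  have := Fact.mk hp
  have hprim := chi_prim hp hm hω hω1
  have : NeZero m := ⟨hm.ne_zero⟩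
  have hx0 := chi_cast_ne hx
  have h1 : ((x : ZMod p) ^ e) ^ m = 1 := by
    rw [← pow_mul, mul_comm e m]
    have : m * e = p - 1 := by omega
    rw [this]
    exact ZMod.pow_card_sub_one_eq_one hx0
  obtain ⟨i, hi, hi2⟩ := hprim.eq_pow_of_pow_eq_one h1
  have hiff : ∀ k : ℕ, ((x ^ e) % p == (ω ^ k) % p) = true ↔
      (x : ZMod p) ^ e = (ω : ZMod p) ^ k := by
    intro k
    rw [beq_iff_eq]
    have : ((x ^ e : ℕ) : ZMod p) = ((ω ^ k : ℕ) : ZMod p) ↔ (x ^ e) % p = (ω ^ k) % p :=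
      ZMod.natCast_eq_natCast_iff _ _ _
    rw [← this]
    push_cast
    rfl
  unfold idx
  cases hf : (List.range m).find? (fun k => (x ^ e) % p == (ω ^ k) % p) with
  | none =>
    exfalso
    rw [List.find?_eq_none] at hf
    exact hf i (List.mem_range.mpr hi) ((hiff i).mpr hi2.symm)
  | some k =>
    have h2 := List.find?_some hf
    have h3 := List.mem_of_find?_eq_some hf
    rw [List.mem_range] at h3
    simp only [Option.getD_some]
    exact ⟨h3, (hiff k).mp h2⟩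

theorem chi_pr : Chi := by
  intro p m e ω hp hm hme hω hω1 x y hx hy
  have := Fact.mk hp
  have hprim := chi_prim hp hm hω hω1
  refine ⟨?_, chi_idx_mod p m e ω x⟩
  have hxy : (x * y) % p ≠ 0 := by
    intro h
    have h1 := (hp.dvd_mul).mp (Nat.dvd_of_mod_eq_zero h)
    rcases h1 with h2 | h2
    · exact hx (Nat.mod_eq_zero_of_dvd h2)
    · exact hy (Nat.mod_eq_zero_of_dvd h2)
  obtain ⟨a1, a2⟩ := chi_spec hp hm hme hω hω1 hx
  obtain ⟨b1, b2⟩ := chi_spec hp hm hme hω hω1 hy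
  obtain ⟨c1, c2⟩ := chi_spec hp hm hme hω hω1 hxy
  have h1 : (ω : ZMod p) ^ (idx p m e ω (x * y)) =
      (ω : ZMod p) ^ ((idx p m e ω x + idx p m e ω y) % m) := by
    rw [← c2]
    have h2 : (ω : ZMod p) ^ ((idx p m e ω x + idx p m e ω y) % m) =
        (ω : ZMod p) ^ (idx p m e ω x + idx p m e ω y) := by
      have h4 := pow_mod_orderOf (ω : ZMod p) (idx p m e ω x + idx p m e ω y)
      rw [← hprim.eq_orderOf] at h4
      exact h4
    rw [h2, pow_add, ← a2, ← b2]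
    push_cast
    exact mul_pow _ _ _
  have h3 := hprim.pow_inj c1 (Nat.mod_lt _ hm.pos) h1
  rw [h3, ZMod.natCast_mod]
  push_cast
  rfl

end Pool.Agent.Q3
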