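import Pool.Agent.Lib_helper79.Q3.Wanted

/-!
# MP_479881_co, block PLANT
-/

set_option autoImplicit false

namespace Pool.Agent.Q3

/-- extension of a partial injection between finite types of the same size -/
theorem plant_ext {α β τ : Type} [Fintype α] [Fintype β] (h : Fintype.card α = Fintype.card β)
    (a : τ → α) (b : τ → β) (ha : Function.Injective a) (hb : Function.Injective b) :
    ∃ σ : α ≃ β, ∀ t, σ (a t) = b t := by
  classical
  by_cases hτ : Nonempty τ
  · obtain ⟨t₀⟩ := hτ
    obtain ⟨f, hf⟩ : ∃ f : α → β, ∀ t, f (a t) = b t :=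
      ⟨Function.extend a b (fun _ => b t₀), fun t => ha.extend_apply b _ t⟩
    have : Finite τ := Finite.of_injective a ha
    have : Fintype τ := Fintype.ofFinite τ
    obtain ⟨g, hg⟩ := Finset.exists_equiv_extend_of_card_eq (α := α) (β := β)
      (t := Finset.univ) (by rw [Finset.card_univ]; exact h)
      (s := Finset.univ.image a) (f := f) (Finset.subset_univ _) (by
        intro x hx y hy hxy
        rw [Finset.mem_coe, Finset.mem_image] at hx hy
        obtain ⟨t, _, rfl⟩ := hx
        obtain ⟨t', _, rfl⟩ := hy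
        rw [hf, hf] at hxy
        rw [hb hxy])
    refine ⟨g.trans (Equiv.subtypeUnivEquiv (fun x => Finset.mem_univ x)), fun t => ?_⟩
    have := hg (a t) (Finset.mem_image_of_mem a (Finset.mem_univ t))
    rw [hf] at this
    exact this
  · exact ⟨Fintype.equivOfCardEq h, fun t => absurd ⟨t⟩ hτ⟩

theorem plant_pr : Plant := by
  intro J _ p hp A _ _ m hm X hX huni ι _ hι Y C hY hC hYi hCi
  classical
  obtain ⟨en⟩ := Function.Embedding.nonempty_of_card_le
    (show Fintype.card ι ≤ Fintype.card (Fin m) by rw [Fintype.card_fin]; exact hι)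
  have hcardA : Fintype.card A = Fintype.card (ZMod 7 × Fin m) := by
    rw [Fintype.card_prod, ZMod.card, Fintype.card_fin, hm]
  -- (a)
  have hσ : ∀ i : ZMod 7, ∃ σ : A ≃ ZMod 7 × Fin m,
      ∀ t : {t : ι // (Y t).1 = i}, σ (X (Y t).2) = ((C t).1, en t) := by
    intro i
    refine plant_ext hcardA (fun t : {t : ι // (Y t).1 = i} => X (Y t).2)
      (fun t => ((C t).1, en t)) ?_ ?_
    · intro t t' h
      apply Subtype.ext
      apply hYi
      simp only at h ⊢
      rw [t.2, t'.2, h]
    · intro t t' h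
      apply Subtype.ext
      apply en.injective
      exact (Prod.ext_iff.mp h).2
  choose σ hσ using hσ
  obtain ⟨g, hg⟩ : ∃ g : ZMod 7 × A → ZMod 7, ∀ z, g z = (σ z.1 z.2).1 := ⟨_, fun _ => rfl⟩
  have hgt : ∀ t, g ((Y t).1, X (Y t).2) = (C t).1 := by
    intro t
    rw [hg]
    have := hσ (Y t).1 ⟨t, rfl⟩
    simp only at this ⊢
    rw [this]
  -- (b)
  have hE : ∀ l : Fin 7, ∃ E : ZMod 7 × A → A,
      (∀ z z', g z + (L l : ZMod 7) * z.1 = g z' + (L l : ZMod 7) * z'.1 → E z = E z' → z = z') ∧
      (∀ t, E ((Y t).1, X (Y t).2) = X (C t + (L l : G p) * Y t).2) := by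
    intro l
    have he : ∀ v : ZMod 7, ∃ e : {z : ZMod 7 × A // g z + (L l : ZMod 7) * z.1 = v} ≃ A,
        ∀ t : {t : ι // (C t + (L l : G p) * Y t).1 = v},
          ∀ hz, e ⟨((Y t).1, X (Y t).2), hz⟩ = X (C t + (L l : G p) * Y t).2 := by
      intro v
      have eqv : {z : ZMod 7 × A // g z + (L l : ZMod 7) * z.1 = v} ≃ ZMod 7 × Fin m :=
        { toFun := fun z => (z.1.1, (σ z.1.1 z.1.2).2)
          invFun := fun x => ⟨(x.1, (σ x.1).symm (v - (L l : ZMod 7) * x.1, x.2)), by
            rw [hg]; simp⟩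
          left_inv := by
            rintro ⟨⟨i, k⟩, hz⟩
            apply Subtype.ext
            simp only [Prod.mk.injEq, true_and]
            rw [hg] at hz
            simp only at hz
            rw [Equiv.symm_apply_eq]
            refine Prod.ext ?_ rfl
            simp only
            rw [← hz]; ring
          right_inv := by
            rintro ⟨i, r⟩
            simp }
      have hcard : Fintype.card {z : ZMod 7 × A // g z + (L l : ZMod 7) * z.1 = v} =
          Fintype.card A := by
        rw [hcardA]; exact Fintype.card_congr eqv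
      have hmem : ∀ t : {t : ι // (C t + (L l : G p) * Y t).1 = v},
          g ((Y t).1, X (Y t).2) + (L l : ZMod 7) * (Y t).1 = v := by
        intro t
        rw [hgt]
        have := t.2
        simpa using this
      obtain ⟨e, he⟩ := plant_ext hcard
        (fun t : {t : ι // (C t + (L l : G p) * Y t).1 = v} =>
          (⟨((Y t).1, X (Y t).2), hmem t⟩ :
            {z : ZMod 7 × A // g z + (L l : ZMod 7) * z.1 = v}))
        (fun t => X (C t + (L l : G p) * Y t).2) (by
          intro t t' h
          apply Subtype.ext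
          apply hYi
          exact (Subtype.ext_iff.mp h)) (by
          intro t t' h
          apply Subtype.ext
          apply hCi l
          simp only at h ⊢
          rw [h, t.2, t'.2])
      exact ⟨e, fun t _ => he t⟩
    choose e he using he
    refine ⟨fun z => e (g z + (L l : ZMod 7) * z.1) ⟨z, rfl⟩, ?_, ?_⟩
    · intro z z' h h'
      simp only at h'
      have key : ∀ (v v' : ZMod 7) (hv : g z + (L l : ZMod 7) * z.1 = v)
          (hv' : g z' + (L l : ZMod 7) * z'.1 = v'), v = v' →
          e v ⟨z, hv⟩ = e v' ⟨z', hv'⟩ → z = z' := by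
        intro v v' hv hv' hvv h1
        subst hvv
        have := (e v).injective h1
        exact Subtype.ext_iff.mp this
      exact key _ _ rfl rfl h h'
    · intro t
      have key : ∀ (v : ZMod 7) (hv : g ((Y t).1, X (Y t).2) + (L l : ZMod 7) * (Y t).1 = v),
          (C t + (L l : G p) * Y t).1 = v → e v ⟨((Y t).1, X (Y t).2), hv⟩ =
            X (C t + (L l : G p) * Y t).2 := by
        intro v hv hv'
        exact he v ⟨t, hv'⟩ hv
      refine key _ rfl ?_
      rw [hgt]
      simp
  choose E hE1 hE2 using hE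
  -- (c)
  have hμ : ∀ z : ZMod 7 × A, ∃ μ : ∀ j, ZMod (p j),
      (∀ (l : Fin 7) j, μ j + (L l : ZMod (p j)) ≠ 0) ∧
      (∀ l : Fin 7, X (fun j => μ j + (L l : ZMod (p j))) + z.2 = E l z) ∧
      (∀ t, z = ((Y t).1, X (Y t).2) → μ * (Y t).2 = (C t).2) := by
    intro z
    by_cases hz : ∃ t, z = ((Y t).1, X (Y t).2)
    · obtain ⟨t, ht⟩ := hz
      obtain ⟨μ, hμ⟩ : ∃ μ : ∀ j, ZMod (p j), ∀ j, μ j = (C t).2 j / (Y t).2 j :=
        ⟨_, fun _ => rfl⟩
      have h1 : ∀ (l : Fin 7) j, (μ j + (L l : ZMod (p j))) * (Y t).2 j =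
          (C t + (L l : G p) * Y t).2 j := by
        intro l j
        rw [hμ, add_mul, div_mul_cancel₀ _ (hY t j)]
        simp
      have h2 : ∀ (l : Fin 7) j, μ j + (L l : ZMod (p j)) ≠ 0 := by
        intro l j h
        apply hC t l j
        rw [← h1, h, zero_mul]
      refine ⟨μ, h2, ?_, ?_⟩
      · intro l
        rw [ht, hE2]
        simp only
        rw [← hX _ _ (h2 l) (hY t)]
        congr 1
        funext j
        exact h1 l j
      · intro t' ht'
        have : t = t' := hYi (ht.symm.trans ht')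
        subst this
        funext j
        have h3 := h1 3 j
        have h4 : (L 3 : ZMod (p j)) = 0 := by simp [L]
        rw [h4, add_zero] at h3
        rw [Pi.mul_apply, h3]
        simp [L]
    · obtain ⟨μ, hμ⟩ := huni (fun l => E l z - z.2)
      refine ⟨μ, fun l => (hμ l).1, fun l => ?_, fun t ht => absurd ⟨t, ht⟩ hz⟩
      rw [(hμ l).2]; abel
  choose μ hμ1 hμ2 hμ3 using hμ
  -- (d)
  have hsnd : ∀ (y : G p) (l : Fin 7) j,
      ((g (y.1, X y.2), μ (y.1, X y.2) * y.2) + (L l : G p) * y : G p).2 j =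
        (μ (y.1, X y.2) j + (L l : ZMod (p j))) * y.2 j := by
    intro y l j
    simp [add_mul]
  refine ⟨fun y => (g (y.1, X y.2), μ (y.1, X y.2) * y.2), ?_, ?_, ?_⟩
  · intro t
    refine Prod.ext (hgt t) ?_
    exact hμ3 _ t rfl
  · intro y hy l j
    rw [hsnd]
    exact mul_ne_zero (hμ1 _ l j) (hy j)
  · intro y y' hy hy' l h
    have h1 : g (y.1, X y.2) + (L l : ZMod 7) * y.1 = g (y'.1, X y'.2) + (L l : ZMod 7) * y'.1 := by
      have := congrArg Prod.fst h
      simpa using this
    have h2 : ∀ j, (μ (y.1, X y.2) j + (L l : ZMod (p j))) * y.2 j =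
        (μ (y'.1, X y'.2) j + (L l : ZMod (p j))) * y'.2 j := by
      intro j
      rw [← hsnd, ← hsnd]
      exact congrFun (congrArg Prod.snd h) j
    have h3 : ∀ y : G p, (∀ j, y.2 j ≠ 0) →
        X (fun j => (μ (y.1, X y.2) j + (L l : ZMod (p j))) * y.2 j) = E l (y.1, X y.2) := by
      intro y hy
      rw [← hμ2, ← hX _ _ (hμ1 _ l) hy]
      rfl
    have h4 : E l (y.1, X y.2) = E l (y'.1, X y'.2) := by
      rw [← h3 y hy, ← h3 y' hy']
      congr 1
      funext j
      exact h2 j
    have h5 := hE1 l (y.1, X y.2) (y'.1, X y'.2) h1 h4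
    refine Prod.ext (Prod.ext_iff.mp h5).1 ?_
    funext j
    have h6 := h2 j
    rw [← h5] at h6
    exact mul_left_cancel₀ (hμ1 _ l j) h6

end Pool.Agent.Q3
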